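import Pool.Agent.H44.SQ.Sharp

/-!
# The upper bound `t_n ≤ max (P(n), 3 √(n / 2) + 3)`, and its sharpness (MP_51b47a_nt)

`t n` is the least `t > 0` such that some nonempty set `S ⊆ {n+1, …, n+t}` makes `n ∏_{a ∈ S} a` a
square; `P n` is the largest prime factor of `n`.
-/

set_option autoImplicit false

namespace Pool.Agent.H44.Old.WithdrawnSharpUpperBound

/-- the largest prime factor of `n` (`0` for `n = 1`) -/
def P (n : ℕ) : ℕ := n.primeFactors.sup id

/-- `t_n` -/
noncomputable def t (n : ℕ) : ℕ :=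
  sInf {t : ℕ | 0 < t ∧ ∃ S : Finset ℕ, S.Nonempty ∧ S ⊆ Finset.Icc (n + 1) (n + t) ∧
    IsSquare (n * ∏ a ∈ S, a)}

/-- the bound `3 ⌊√⌊n / 2⌋⌋ + 3` -/
def B (n : ℕ) : ℕ := 3 * Nat.sqrt (n / 2) + 3

theorem result :
    -- the upper bound
    (∀ n : ℕ, 1 ≤ n → t n ≤ max (P n) (B n)) ∧
    -- the exact value if the largest prime factor is large
    (∀ n : ℕ, 2 ≤ n → B n ≤ P n → t n = P n) ∧
    -- the bound is attained for `n = q (2 q - 1)` if `q` and `2 q + 1` are odd primes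
    (∀ q : ℕ, q.Prime → q ≠ 2 → (2 * q + 1).Prime →
      t (q * (2 * q - 1)) = 3 * q ∧ B (q * (2 * q - 1)) = 3 * q ∧ P (q * (2 * q - 1)) < 3 * q) := by
  refine ⟨fun n hn => Pool.Agent.H44.SQ.tt_le_max hn, fun n hn h => Pool.Agent.H44.SQ.tt_eq hn h,
    fun q hq hq2 hp => ⟨Pool.Agent.H44.SQ.sharp q hq hq2 hp, ?_, ?_⟩⟩
  · have h1 := Pool.Agent.H44.SQ.sqrt_sharp q hq.one_lt.le
    have h2 := hq.two_le
    unfold B
    rw [h1]
    omega
  · have h2 := hq.two_le
    unfold P
    rw [Finset.sup_lt_iff (by simp only [bot_eq_zero]; omega)]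
    intro l hl
    have hlp := Nat.prime_of_mem_primeFactors hl
    rcases (hlp.dvd_mul).mp (Nat.dvd_of_mem_primeFactors hl) with h | h
    · have := Nat.le_of_dvd (by omega) h
      simp only [id]
      omega
    · have := Nat.le_of_dvd (by omega) h
      simp only [id]
      omega

end Pool.Agent.H44.Old.WithdrawnSharpUpperBound
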